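import Pool.Agent.Q202.AutFpt.Defs
import Pool.Agent.Q202.AutFpt.Iso

/-!
# FPT is not determined by the automorphism group
-/

namespace Pool.Agent.Results.MP_970e84_lc.FptNotGroupProperty

open FirstOrder FirstOrder.Language Q202.EDRP Q202.AutFpt

/-- **Theorem.** There are Fraisse structures `M` and `M'` (in different countable relational
languages) whose automorphism groups are isomorphic as topological groups, such that `M` has the
fixed points on type spaces property and `M'` does not. -/
theorem result :
    ∃ (L L' : Language.{0, 0}) (M M' : Type) (_ : L.Structure M) (_ : L'.Structure M'),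
      IsFraisseStructure L M ∧ IsFraisseStructure L' M' ∧ AutIso L M L' M' ∧
      FPT L M ∧ ¬ FPT L' M' := by
  refine ⟨Language.empty, Bad.Lg, ℕ, Bad.Pts, inferInstance, inferInstance, ?_, ?_, autIso,
    Pure.fpt ℕ, Bad.not_fpt⟩
  · exact ⟨inferInstance, inferInstance, inferInstance, inferInstance,
      (Language.empty.isFraisseLimit_of_countable_infinite ℕ).ultrahomogeneous⟩
  · exact ⟨inferInstance, inferInstance, inferInstance, inferInstance, Bad.ultrahomogeneous⟩

end Pool.Agent.Results.MP_970e84_lc.FptNotGroupProperty
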